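import Pool.Agent.helper38.OB.Spec

namespace Pool.Agent.OB

open Finset

theorem LOW_be (h : ℕ) (hh : 3 ≤ h) : (2 : ℝ) ≤ (be h : ℝ) := by
  have h1 : 1 ≤ h ^ 2 := Nat.one_le_pow _ _ (by omega)
  have h2 : 2 ≤ C0 h := by
    unfold C0
    omega
  have h3 : 2 ≤ be h := by
    unfold be
    calc 2 ≤ C0 h := h2
      _ = C0 h ^ 1 := (pow_one _).symm
      _ ≤ C0 h ^ 6 := Nat.pow_le_pow_right (by omega) (by norm_num)
  exact_mod_cast h3

theorem LOW_wt (hWTS : WTS_stmt) (h : ℕ) (hh : 3 ≤ h) (κ : ℝ) (h0 : 0 < κ) (h1 : κ ≤ 1) (x : ℕ) :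
    0 ≤ wt h κ x := (hWTS h hh κ h0 h1 (lev h x)).2.1.le

theorem LOW_geo1 (β : ℝ) (hβ : 2 ≤ β) (n : ℕ) : ∑ k ∈ range n, β ^ k ≤ β ^ n := by
  induction n with
  | zero => simp
  | succ n ih =>
    rw [sum_range_succ, pow_succ]
    have h1 : 0 ≤ β ^ n := pow_nonneg (by linarith) n
    nlinarith

theorem LOW_geo2 (β : ℝ) (hβ : 2 ≤ β) (n : ℕ) : ∑ k ∈ range (n + 1), β ^ k ≤ 2 * β ^ n := by
  rw [sum_range_succ]
  have h1 := LOW_geo1 β hβ n
  linarith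

theorem LOW_sub (hWTS : WTS_stmt) (h : ℕ) (hh : 3 ≤ h) (κ : ℝ) (h0 : 0 < κ)
    (h1 : κ ≤ 1) (n : ℕ) (F : Finset ℕ) (hF : ∀ x ∈ F, ∃ k, k < n ∧ x ∈ S h k) :
    ∑ x ∈ F, wt h κ x ≤ κ * ∑ k ∈ range n, (be h : ℝ) ^ k := by
  have hw : ∀ x, 0 ≤ wt h κ x := LOW_wt hWTS h hh κ h0 h1
  have key : ∀ x ∈ F, wt h κ x ≤ ∑ k ∈ range n, if x ∈ S h k then wt h κ x else 0 := by
    intro x hx
    obtain ⟨k, hk, hxk⟩ := hF x hx
    have h2 : (if x ∈ S h k then wt h κ x else 0) = wt h κ x := if_pos hxk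
    have h3 : (if x ∈ S h k then wt h κ x else 0) ≤ ∑ k ∈ range n, if x ∈ S h k then wt h κ x else 0 := by
      refine single_le_sum (f := fun k => if x ∈ S h k then wt h κ x else 0) ?_ (mem_range.mpr hk)
      intro i _
      show 0 ≤ if x ∈ S h i then wt h κ x else 0
      split_ifs
      · exact hw x
      · exact le_refl _
    rw [h2] at h3
    exact h3
  calc ∑ x ∈ F, wt h κ x ≤ ∑ x ∈ F, ∑ k ∈ range n, (if x ∈ S h k then wt h κ x else 0) := sum_le_sum key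
    _ = ∑ k ∈ range n, ∑ x ∈ F, (if x ∈ S h k then wt h κ x else 0) := sum_comm
    _ ≤ ∑ k ∈ range n, ∑ x ∈ S h k, wt h κ x := by
        refine sum_le_sum ?_
        intro k _
        rw [← sum_filter]
        refine sum_le_sum_of_subset_of_nonneg ?_ ?_
        · intro x hx
          exact (mem_filter.mp hx).2
        · intro x _ _
          exact hw x
    _ = κ * ∑ k ∈ range n, (be h : ℝ) ^ k := by
        rw [mul_sum]
        refine sum_congr rfl ?_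
        intro k _
        exact (hWTS h hh κ h0 h1 k).2.2.2

theorem LOW (hBAS : BAS_stmt) (hWTS : WTS_stmt) : LOW_stmt := by
  intro h hh κ h0 h1 l0 l J
  have hb := LOW_be h hh
  refine ⟨?_, ?_⟩
  · have h2 := LOW_sub hWTS h hh κ h0 h1 (l + 1) (U h l0 l) (by
      intro x hx
      unfold U at hx
      obtain ⟨k, hk, hxk⟩ := mem_biUnion.mp hx
      exact ⟨k, by have := (mem_Icc.mp hk).2; omega, hxk⟩)
    have h3 := LOW_geo2 (be h : ℝ) hb l
    calc ∑ x ∈ U h l0 l, wt h κ x ≤ κ * ∑ k ∈ range (l + 1), (be h : ℝ) ^ k := h2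
      _ ≤ κ * (2 * (be h : ℝ) ^ l) := mul_le_mul_of_nonneg_left h3 h0.le
      _ = 2 * κ * (be h : ℝ) ^ l := by ring
  · have h2 := LOW_sub hWTS h hh κ h0 h1 J ((U h l0 l).filter (fun x => lev h x < J)) (by
      intro x hx
      obtain ⟨hx1, hx2⟩ := mem_filter.mp hx
      unfold U at hx1
      obtain ⟨k, hk, hxk⟩ := mem_biUnion.mp hx1
      have h3 := ((hBAS h hh k).1 x hxk).1
      exact ⟨k, by omega, hxk⟩)
    exact h2.trans (mul_le_mul_of_nonneg_left (LOW_geo1 (be h : ℝ) hb J) h0.le)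

end Pool.Agent.OB
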