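import Pool.Agent.helper38.OB.Spec

namespace Pool.Agent.OB

open Finset

theorem TD_cov {X ι : Type} (F : Finset X) (A : Finset ι) (G : ι → Finset X) (f : X → ℝ)
    (hf : ∀ x, 0 ≤ f x) (hc : ∀ x ∈ F, ∃ a ∈ A, x ∈ G a) :
    ∑ x ∈ F, f x ≤ ∑ a ∈ A, ∑ x ∈ G a, f x := by
  classical
  have key : ∀ x ∈ F, f x ≤ ∑ a ∈ A, if x ∈ G a then f x else 0 := by
    intro x hx
    obtain ⟨a, ha, hxa⟩ := hc x hx
    have h2 : (if x ∈ G a then f x else 0) = f x := if_pos hxa
    have h3 : (if x ∈ G a then f x else 0) ≤ ∑ a ∈ A, if x ∈ G a then f x else 0 := by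
      refine single_le_sum (f := fun a => if x ∈ G a then f x else 0) ?_ ha
      intro i _
      show 0 ≤ if x ∈ G i then f x else 0
      split_ifs
      · exact hf x
      · exact le_refl _
    rw [h2] at h3
    exact h3
  calc ∑ x ∈ F, f x ≤ ∑ x ∈ F, ∑ a ∈ A, (if x ∈ G a then f x else 0) := sum_le_sum key
    _ = ∑ a ∈ A, ∑ x ∈ F, (if x ∈ G a then f x else 0) := sum_comm
    _ ≤ ∑ a ∈ A, ∑ x ∈ G a, f x := by
        refine sum_le_sum ?_
        intro a _
        rw [← sum_filter]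
        refine sum_le_sum_of_subset_of_nonneg ?_ ?_
        · intro x hx
          exact (mem_filter.mp hx).2
        · intro x _ _
          exact hf x

theorem TD_be (h : ℕ) (hh : 3 ≤ h) : (1 : ℝ) ≤ (be h : ℝ) ∧ (1 : ℝ) ≤ (C0 h : ℝ) := by
  have h1 : 1 ≤ h ^ 2 := Nat.one_le_pow _ _ (by omega)
  have h2 : 1 ≤ C0 h := by
    unfold C0
    omega
  have h3 : 1 ≤ be h := by
    unfold be
    exact Nat.one_le_pow _ _ h2
  exact ⟨by exact_mod_cast h3, by exact_mod_cast h2⟩

theorem TD_lf {h : ℕ} (e : Fin h → ℤ) (x : Fin h → ℕ) (i0 : Fin h) (y : ℕ) :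
    lf e (Function.update x i0 y) = e i0 * (y : ℤ) + ∑ i ∈ univ.erase i0, e i * (x i : ℤ) := by
  unfold lf
  rw [← add_sum_erase univ (fun i => e i * ((Function.update x i0 y i : ℕ) : ℤ)) (mem_univ i0)]
  rw [Function.update_self]
  refine congrArg₂ (· + ·) rfl (sum_congr rfl ?_)
  intro i hi
  rw [Function.update_of_ne (ne_of_mem_erase hi)]

theorem TD_one (hWTS : WTS_stmt) (hELI : ELI_stmt) (h : ℕ) (hh : 3 ≤ h) (κ : ℝ) (h0 : 0 < κ)
    (h1 : κ ≤ 1) (l : ℕ) (e : Fin h → ℤ) (he : Sg e) (t : ℤ) (i0 : Fin h) (V : Fin h → Finset ℕ)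
    (hV : V i0 = S h l) :
    ∑ x ∈ (Fintype.piFinset V).filter (fun x => lf e x = t), ∏ i, wt h κ (x i) ≤
      pl h κ l * ∏ i ∈ univ.erase i0, ∑ y ∈ V i, wt h κ y := by
  have h2 := hELI h V (wt h κ) i0 (fun x => lf e x = t) (pl h κ l) 1
    (fun y => (hWTS h hh κ h0 h1 (lev h y)).2.1.le) (hWTS h hh κ h0 h1 l).2.1.le zero_le_one
    (by
      intro y hy
      rw [hV] at hy
      exact le_of_eq ((hWTS h hh κ h0 h1 l).1 y hy))
    (by
      intro x _
      have h3 : ((V i0).filter fun y => lf e (Function.update x i0 y) = t).card ≤ 1 := by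
        rw [card_le_one]
        intro y hy y' hy'
        have h4 := (mem_filter.mp hy).2
        have h5 := (mem_filter.mp hy').2
        rw [TD_lf] at h4 h5
        have h6 : e i0 * (y : ℤ) = e i0 * (y' : ℤ) := by linarith
        have h7 : e i0 ≠ 0 := by
          rcases he i0 with h8 | h8 <;> rw [h8] <;> norm_num
        have h8 := mul_left_cancel₀ h7 h6
        exact_mod_cast h8
      exact_mod_cast h3)
  rw [one_mul] at h2
  exact h2

/-- algebra, part 1 -/
theorem TD_alg1 (β κ c : ℝ) (n l d : ℕ) (hβ : 1 ≤ β) (h0 : 0 < κ) (h1 : κ ≤ 1) (hc : 1 ≤ c) :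
    κ * β ^ l * c ^ (d + 1) / (β ^ (n + 2)) ^ (l + 1) * (2 * κ * β ^ l) ^ (n + 1) ≤
      2 ^ (n + 2) * c * c ^ d := by
  have hβ0 : 0 < β := by linarith
  have hc0 : 0 < c := by linarith
  rw [div_mul_eq_mul_div, div_le_iff₀ (by positivity)]
  have e1 : κ * β ^ l * c ^ (d + 1) * (2 * κ * β ^ l) ^ (n + 1) =
      (2 ^ (n + 1) * κ ^ (n + 2) * β ^ (l * (n + 2))) * (c * c ^ d) := by
    rw [mul_pow, mul_pow, ← pow_mul]
    have : l * (n + 2) = l + l * (n + 1) := by ring
    rw [this, pow_add β l, pow_succ κ (n + 1), pow_succ c d]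
    ring
  have e2 : 2 ^ (n + 2) * c * c ^ d * (β ^ (n + 2)) ^ (l + 1) =
      (2 ^ (n + 2) * β ^ ((n + 2) * (l + 1))) * (c * c ^ d) := by
    rw [← pow_mul]
    ring
  rw [e1, e2]
  refine mul_le_mul_of_nonneg_right ?_ (by positivity)
  have hκ : κ ^ (n + 2) ≤ 1 := pow_le_one₀ h0.le h1
  have h2 : (2 : ℝ) ^ (n + 1) * κ ^ (n + 2) ≤ 2 ^ (n + 2) := by
    calc (2 : ℝ) ^ (n + 1) * κ ^ (n + 2) ≤ 2 ^ (n + 1) * 1 := mul_le_mul_of_nonneg_left hκ (by positivity)
      _ ≤ 2 ^ (n + 2) := by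
        rw [mul_one]
        exact pow_le_pow_right₀ (by norm_num) (by omega)
  have h3 : β ^ (l * (n + 2)) ≤ β ^ ((n + 2) * (l + 1)) := by
    refine pow_le_pow_right₀ hβ ?_
    rw [mul_comm l (n + 2)]
    exact Nat.mul_le_mul_left _ (by omega)
  exact mul_le_mul h2 h3 (by positivity) (by positivity)

/-- algebra, part 2 -/
theorem TD_alg2 (β κ c : ℝ) (n l d J : ℕ) (hJ : J ≤ l) (hβ : 1 ≤ β) (h0 : 0 < κ) (h1 : κ ≤ 1)
    (hc : 1 ≤ c) :
    κ * β ^ l * c ^ (d + 1) / (β ^ (n + 2)) ^ (l + 1) * (κ * β ^ J * (2 * κ * β ^ l) ^ n) ≤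
      2 ^ (n + 2) * c * c ^ d / β ^ (l - J) := by
  have hβ0 : 0 < β := by linarith
  have hc0 : 0 < c := by linarith
  rw [div_mul_eq_mul_div, div_le_div_iff₀ (by positivity) (by positivity)]
  have e0 : β ^ J * β ^ (l - J) = β ^ l := pow_mul_pow_sub β hJ
  have e1 : κ * β ^ l * c ^ (d + 1) * (κ * β ^ J * (2 * κ * β ^ l) ^ n) * β ^ (l - J) =
      (2 ^ n * κ ^ (n + 2) * β ^ (l * (n + 2))) * (c * c ^ d) := by
    have e3 : κ * β ^ l * c ^ (d + 1) * (κ * β ^ J * (2 * κ * β ^ l) ^ n) * β ^ (l - J) =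
      κ * β ^ l * c ^ (d + 1) * (κ * (2 * κ * β ^ l) ^ n) * (β ^ J * β ^ (l - J)) := by ring
    rw [e3, e0, mul_pow, mul_pow, ← pow_mul]
    have : l * (n + 2) = l + l + l * n := by ring
    rw [this, pow_add β (l + l), pow_add β l l, pow_succ κ (n + 1), pow_succ κ n, pow_succ c d]
    ring
  have e2 : 2 ^ (n + 2) * c * c ^ d * (β ^ (n + 2)) ^ (l + 1) =
      (2 ^ (n + 2) * β ^ ((n + 2) * (l + 1))) * (c * c ^ d) := by
    rw [← pow_mul]
    ring
  rw [e1, e2]
  refine mul_le_mul_of_nonneg_right ?_ (by positivity)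
  have hκ : κ ^ (n + 2) ≤ 1 := pow_le_one₀ h0.le h1
  have h2 : (2 : ℝ) ^ n * κ ^ (n + 2) ≤ 2 ^ (n + 2) := by
    calc (2 : ℝ) ^ n * κ ^ (n + 2) ≤ 2 ^ n * 1 := mul_le_mul_of_nonneg_left hκ (by positivity)
      _ ≤ 2 ^ (n + 2) := by
        rw [mul_one]
        exact pow_le_pow_right₀ (by norm_num) (by omega)
  have h3 : β ^ (l * (n + 2)) ≤ β ^ ((n + 2) * (l + 1)) := by
    refine pow_le_pow_right₀ hβ ?_
    rw [mul_comm l (n + 2)]
    exact Nat.mul_le_mul_left _ (by omega)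
  exact mul_le_mul h2 h3 (by positivity) (by positivity)

theorem TD_mem {h : ℕ} (l0 l : ℕ) (e : Fin h → ℤ) (t : ℤ) (x : Fin h → ℕ)
    (hx : x ∈ top h l (RP e t (U h l0 l))) :
    (∀ i, x i ∈ U h l0 l) ∧ lf e x = t ∧ ∃ i, lev h (x i) = l := by
  classical
  unfold top RP RQ Inj at hx
  simp only [mem_filter, Fintype.mem_piFinset] at hx
  exact ⟨hx.1.1.1, hx.1.2, hx.2⟩

theorem TD_U (hBAS : BAS_stmt) (h : ℕ) (hh : 3 ≤ h) (l0 l y : ℕ) (hy : y ∈ U h l0 l) :
    y ∈ S h (lev h y) ∧ lev h y ≤ l := by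
  unfold U at hy
  obtain ⟨k, hk, hyk⟩ := mem_biUnion.mp hy
  have h1 := ((hBAS h hh k).1 y hyk).1
  rw [h1]
  exact ⟨hyk, (mem_Icc.mp hk).2⟩

theorem TD (hBAS : BAS_stmt) (hWTS : WTS_stmt) (hLOW : LOW_stmt) (hELI : ELI_stmt)
    (hKIL : KIL_stmt) : TD_stmt := by
  classical
  intro h hodd hh
  obtain ⟨hβ, hc⟩ := TD_be h hh
  have hh0 : (1 : ℝ) ≤ (h : ℝ) := by exact_mod_cast (by omega : 1 ≤ h)
  refine ⟨(h : ℝ) ^ 2 * (2 ^ h * (C0 h : ℝ)), by positivity, ?_⟩
  intro κ h0 h1 l0 l e he t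
  have hw : ∀ y, 0 ≤ wt h κ y := fun y => (hWTS h hh κ h0 h1 (lev h y)).2.1.le
  have hpw : ∀ x : Fin h → ℕ, 0 ≤ ∏ i, wt h κ (x i) := fun x => prod_nonneg fun i _ => hw _
  have hpl : 0 ≤ pl h κ l := (hWTS h hh κ h0 h1 l).2.1.le
  have hU : ∑ y ∈ U h l0 l, wt h κ y ≤ 2 * κ * (be h : ℝ) ^ l := (hLOW h hh κ h0 h1 l0 l 0).1
  obtain ⟨n, hn⟩ : ∃ n, h = n + 2 := ⟨h - 2, by omega⟩
  have hplf : pl h κ l = κ * (be h : ℝ) ^ l * (C0 h : ℝ) ^ (dep h l + 1) /
      ((be h : ℝ) ^ (n + 2)) ^ (l + 1) := by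
    unfold pl
    have h2 : (Bs h : ℝ) = (be h : ℝ) ^ (n + 2) := by
      have h3 : Bs h = be h ^ (n + 2) := by
        rw [← hn]
        rfl
      rw [h3]
      push_cast
      rfl
    rw [h2]
  refine ⟨?_, ?_⟩
  · -- part 1
    have hcov : Ex h κ (top h l (RP e t (U h l0 l))) ≤
        ∑ i0 : Fin h, ∑ x ∈ (Fintype.piFinset fun i => if i = i0 then S h l else U h l0 l).filter
          (fun x => lf e x = t), ∏ i, wt h κ (x i) := by
      unfold Ex
      refine TD_cov _ _ _ _ hpw ?_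
      intro x hx
      obtain ⟨h2, h3, i0, h4⟩ := TD_mem l0 l e t x hx
      refine ⟨i0, mem_univ _, ?_⟩
      rw [mem_filter, Fintype.mem_piFinset]
      refine ⟨?_, h3⟩
      intro i
      by_cases hi : i = i0
      · rw [if_pos hi, hi, ← h4]
        exact (TD_U hBAS h hh l0 l _ (h2 i0)).1
      · rw [if_neg hi]
        exact h2 i
    have hterm : ∀ i0 : Fin h, ∑ x ∈ (Fintype.piFinset fun i => if i = i0 then S h l else U h l0 l).filter
          (fun x => lf e x = t), ∏ i, wt h κ (x i) ≤ 2 ^ h * (C0 h : ℝ) * (C0 h : ℝ) ^ dep h l := by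
      intro i0
      refine (TD_one hWTS hELI h hh κ h0 h1 l e he t i0
        (fun i => if i = i0 then S h l else U h l0 l) (by simp)).trans ?_
      have h2 : ∏ i ∈ univ.erase i0, ∑ y ∈ (if i = i0 then S h l else U h l0 l), wt h κ y ≤
          (2 * κ * (be h : ℝ) ^ l) ^ (n + 1) := by
        have h3 : (univ.erase i0 : Finset (Fin h)).card = n + 1 := by
          rw [card_erase_of_mem (mem_univ _), card_univ, Fintype.card_fin, hn]
          omega
        rw [← h3, ← prod_const]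
        refine prod_le_prod ?_ ?_
        · intro i _
          exact sum_nonneg fun y _ => hw y
        · intro i hi
          rw [if_neg (ne_of_mem_erase hi)]
          exact hU
      refine (mul_le_mul_of_nonneg_left h2 hpl).trans ?_
      rw [hplf]
      have h3 := TD_alg1 (be h : ℝ) κ (C0 h : ℝ) n l (dep h l) hβ h0 h1 hc
      rw [← hn] at h3 ⊢
      exact h3
    have hd : (C0 h : ℝ) ^ dep h l ≤ (l : ℝ) + 1 := by
      have h2 := (hBAS h hh l).2.2.2.2.1
      exact_mod_cast h2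
    calc Ex h κ (top h l (RP e t (U h l0 l))) ≤ _ := hcov
      _ ≤ ∑ _i0 : Fin h, 2 ^ h * (C0 h : ℝ) * (C0 h : ℝ) ^ dep h l := sum_le_sum fun i0 _ => hterm i0
      _ = (h : ℝ) * (2 ^ h * (C0 h : ℝ)) * (C0 h : ℝ) ^ dep h l := by
        rw [sum_const, card_univ, Fintype.card_fin, nsmul_eq_mul]
        ring
      _ ≤ (h : ℝ) ^ 2 * (2 ^ h * (C0 h : ℝ)) * ((l : ℝ) + 1) := by
        refine mul_le_mul ?_ hd (by positivity) (by positivity)
        refine mul_le_mul_of_nonneg_right ?_ (by positivity)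
        nlinarith
  · -- part 2
    intro J hJ ht
    have hJ' : max (lo h l) J ≤ l := by
      refine max_le ?_ hJ
      unfold lo
      omega
    have hcov : Ex h κ (top h l (RP e t (U h l0 l))) ≤
        ∑ p ∈ (univ : Finset (Fin h × Fin h)).filter (fun p => p.2 ≠ p.1),
          ∑ x ∈ (Fintype.piFinset fun i => if i = p.1 then S h l else
            if i = p.2 then (U h l0 l).filter (fun x => lev h x < max (lo h l) J) else U h l0 l).filter
          (fun x => lf e x = t), ∏ i, wt h κ (x i) := by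
      unfold Ex
      refine TD_cov _ _ _ _ hpw ?_
      intro x hx
      obtain ⟨h2, h3, i0, h4⟩ := TD_mem l0 l e t x hx
      obtain ⟨i1, h5⟩ := hKIL h hodd hh (fun i => lev h (x i)) x e l J he
        (fun i => (TD_U hBAS h hh l0 l _ (h2 i)).1) (fun i => (TD_U hBAS h hh l0 l _ (h2 i)).2)
        (by rw [h3]; exact ht)
      have h6 : i1 ≠ i0 := by
        intro h7
        rw [h7] at h5
        simp only [h4] at h5
        omega
      refine ⟨(i0, i1), mem_filter.mpr ⟨mem_univ _, h6⟩, ?_⟩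
      rw [mem_filter, Fintype.mem_piFinset]
      refine ⟨?_, h3⟩
      intro i
      by_cases hi : i = i0
      · simp only [if_pos hi]
        rw [hi, ← h4]
        exact (TD_U hBAS h hh l0 l _ (h2 i0)).1
      · by_cases hi1 : i = i1
        · simp only [if_neg hi, if_pos hi1]
          rw [hi1]
          exact mem_filter.mpr ⟨h2 i1, h5⟩
        · simp only [if_neg hi, if_neg hi1]
          exact h2 i
    have hterm : ∀ p ∈ (univ : Finset (Fin h × Fin h)).filter (fun p => p.2 ≠ p.1),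
          ∑ x ∈ (Fintype.piFinset fun i => if i = p.1 then S h l else
            if i = p.2 then (U h l0 l).filter (fun x => lev h x < max (lo h l) J) else U h l0 l).filter
          (fun x => lf e x = t), ∏ i, wt h κ (x i) ≤
            2 ^ h * (C0 h : ℝ) * (C0 h : ℝ) ^ dep h l / (be h : ℝ) ^ (l - max (lo h l) J) := by
      rintro ⟨i0, i1⟩ hp
      have hne : i1 ≠ i0 := (mem_filter.mp hp).2
      simp only
      refine (TD_one hWTS hELI h hh κ h0 h1 l e he t i0
        (fun i => if i = i0 then S h l else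
          if i = i1 then (U h l0 l).filter (fun x => lev h x < max (lo h l) J) else U h l0 l)
        (by simp)).trans ?_
      have h2 : ∏ i ∈ univ.erase i0, ∑ y ∈ (if i = i0 then S h l else
          if i = i1 then (U h l0 l).filter (fun x => lev h x < max (lo h l) J) else U h l0 l),
            wt h κ y ≤
          κ * (be h : ℝ) ^ (max (lo h l) J) * (2 * κ * (be h : ℝ) ^ l) ^ n := by
        have h4 : i1 ∈ (univ.erase i0 : Finset (Fin h)) := mem_erase.mpr ⟨hne, mem_univ _⟩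
        have h3 : ((univ.erase i0).erase i1 : Finset (Fin h)).card = n := by
          rw [card_erase_of_mem h4, card_erase_of_mem (mem_univ _), card_univ, Fintype.card_fin, hn]
          omega
        rw [← mul_prod_erase _ _ h4]
        refine mul_le_mul ?_ ?_ ?_ ?_
        · rw [if_neg hne, if_pos rfl]
          exact (hLOW h hh κ h0 h1 l0 l (max (lo h l) J)).2
        · rw [← h3, ← prod_const]
          refine prod_le_prod ?_ ?_
          · intro i _
            exact sum_nonneg fun y _ => hw y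
          · intro i hi
            have hi1 := ne_of_mem_erase hi
            have hi0 := ne_of_mem_erase (mem_of_mem_erase hi)
            rw [if_neg hi0, if_neg hi1]
            exact hU
        · exact prod_nonneg fun i _ => sum_nonneg fun y _ => hw y
        · positivity
      refine (mul_le_mul_of_nonneg_left h2 hpl).trans ?_
      rw [hplf]
      have h3 := TD_alg2 (be h : ℝ) κ (C0 h : ℝ) n l (dep h l) (max (lo h l) J) hJ' hβ h0 h1 hc
      rw [← hn] at h3 ⊢
      exact h3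
    have hbig : 0 ≤ 2 ^ h * (C0 h : ℝ) * (C0 h : ℝ) ^ dep h l / (be h : ℝ) ^ (l - max (lo h l) J) := by
      positivity
    have hcard : (((univ : Finset (Fin h × Fin h)).filter (fun p => p.2 ≠ p.1)).card : ℝ) ≤ (h : ℝ) ^ 2 := by
      have h2 : ((univ : Finset (Fin h × Fin h)).filter (fun p => p.2 ≠ p.1)).card ≤ h ^ 2 := by
        refine (card_filter_le _ _).trans ?_
        rw [card_univ, Fintype.card_prod, Fintype.card_fin, sq]
      exact_mod_cast h2
    calc Ex h κ (top h l (RP e t (U h l0 l))) ≤ _ := hcov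
      _ ≤ ∑ _p ∈ (univ : Finset (Fin h × Fin h)).filter (fun p => p.2 ≠ p.1),
          2 ^ h * (C0 h : ℝ) * (C0 h : ℝ) ^ dep h l / (be h : ℝ) ^ (l - max (lo h l) J) :=
        sum_le_sum hterm
      _ = (((univ : Finset (Fin h × Fin h)).filter (fun p => p.2 ≠ p.1)).card : ℝ) *
          (2 ^ h * (C0 h : ℝ) * (C0 h : ℝ) ^ dep h l / (be h : ℝ) ^ (l - max (lo h l) J)) := by
        rw [sum_const, nsmul_eq_mul]
      _ ≤ (h : ℝ) ^ 2 *
          (2 ^ h * (C0 h : ℝ) * (C0 h : ℝ) ^ dep h l / (be h : ℝ) ^ (l - max (lo h l) J)) :=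
        mul_le_mul_of_nonneg_right hcard hbig
      _ = (h : ℝ) ^ 2 * (2 ^ h * (C0 h : ℝ)) * (C0 h : ℝ) ^ dep h l /
          (be h : ℝ) ^ (l - max (lo h l) J) := by ring

end Pool.Agent.OB
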